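import Pool.Agent.Lib.MP_b5021c_nt.IfaceS2a

/-!
# Board b5, row T_NP2: numerical step in class `P`, loads of type A1
-/

namespace Pool.Agent.B5.H23

open Pool.Agent.B5

theorem np2_log_bounds (θ : ℝ) (hθ : 100 ≤ θ) :
    0 ≤ Real.log θ ∧ Real.log (θ + 1) ≤ Real.log θ + 1 := by
  have h0 : 0 < θ := by linarith
  refine ⟨Real.log_nonneg (by linarith), ?_⟩
  have h1 : Real.log (θ + 1) ≤ Real.log (θ * 2) :=
    Real.log_le_log (by linarith) (by linarith)
  rw [Real.log_mul h0.ne' two_ne_zero] at h1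
  have h2 : Real.log 2 ≤ 1 := by
    have := Real.log_le_sub_one_of_pos (show (0 : ℝ) < 2 by norm_num)
    linarith
  linarith

theorem np2_half_le_log_sqrt : (1 : ℝ) / 2 ≤ Real.log (Real.sqrt 3) := by
  rw [Real.log_sqrt (by norm_num)]
  have h1 : (1 : ℝ) ≤ Real.log 3 := by
    rw [Real.le_log_iff_exp_le (by norm_num)]
    have := Real.exp_one_lt_d9
    linarith
  linarith

theorem np2_g (θ : ℝ) (hθ : 100 ≤ θ) (g : ℕ)
    (hg : g ≤ 4 ∨ Real.sqrt 3 ^ (g + 1) ≤ θ + 1) :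
    (g : ℝ) ≤ 6 + 2 * Real.log θ := by
  obtain ⟨hl0, hl1⟩ := np2_log_bounds θ hθ
  rcases hg with hg | hg
  · have : (g : ℝ) ≤ 4 := by exact_mod_cast hg
    linarith
  · have h3 : (0 : ℝ) < Real.sqrt 3 := Real.sqrt_pos.mpr (by norm_num)
    have h1 := Real.log_le_log (pow_pos h3 (g + 1)) hg
    rw [Real.log_pow] at h1
    push_cast at h1
    have h2 := np2_half_le_log_sqrt
    have h4 : ((g : ℝ) + 1) * (1 / 2) ≤ ((g : ℝ) + 1) * Real.log (Real.sqrt 3) :=
      mul_le_mul_of_nonneg_left h2 (by positivity)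
    linarith

theorem np2 (hSmp : SmpS) : Np2S := by
  intro θ m N' l g hθ hN' hp hl hg
  obtain ⟨hl0, hl1⟩ := np2_log_bounds θ hθ
  have hgb := np2_g θ hθ g hg
  have h3 : (1 : ℝ) ≤ Real.sqrt 3 := by
    rw [Real.one_le_sqrt]; norm_num
  have hN1 : ∀ i, 1 ≤ N' i := fun i => h3.trans (hN' i)
  have hb : ∀ i, bVS (N' i) = 2 * N' i + 100 * Real.log (N' i) := by
    intro i
    rw [bVS, max_eq_right (hN1 i)]
  have hsum : ∑ i, bVS (N' i) = 2 * ∑ i, N' i + 100 * Real.log (∏ i, N' i) := by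
    rw [Real.log_prod (fun i _ => by have := hN1 i; positivity),
      Finset.mul_sum, Finset.mul_sum, ← Finset.sum_add_distrib]
    exact Finset.sum_congr rfl fun i _ => hb i
  obtain ⟨p, hpdef⟩ : ∃ p : ℝ, p = ∏ i, N' i := ⟨_, rfl⟩
  rw [← hpdef] at hp hl hsum
  have hp1 : 1 ≤ p := by
    rw [hpdef]
    calc (1 : ℝ) = ∏ _i : Fin m, (1 : ℝ) := by simp
      _ ≤ ∏ i, N' i := Finset.prod_le_prod (fun _ _ => zero_le_one) (fun i _ => hN1 i)
  have hS : ∑ i, N' i ≤ p + 22 / 10 := by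
    rcases Nat.lt_or_ge m 2 with hm | hm
    · interval_cases m
      · simp only [Finset.univ_eq_empty, Finset.sum_empty]
        linarith
      · rw [hpdef]
        simp only [Fin.sum_univ_one, Fin.prod_univ_one]
        linarith
    · have h := hSmp m N' hm hN'
      have h5 : p / Real.sqrt 3 ≤ p := div_le_self (by linarith) h3
      rw [← hpdef] at h
      linarith
  have hlog : Real.log p ≤ Real.log θ + 1 :=
    (Real.log_le_log (by linarith) hp).trans hl1
  have hlp : (l : ℝ) + 2 * p ≤ 2 * θ + 4 := by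
    have h6 : ((l : ℝ) + 2 * p) * p ≤ (2 * θ + 4) * p := by nlinarith
    exact le_of_mul_le_mul_right h6 (by linarith)
  rw [hsum, bPS]
  nlinarith

end Pool.Agent.B5.H23
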